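import Pool.Agent.H57.MC.Seg

/-! The translates of polyhedral cones which can be continued across their walls cover the interior
of an invariant cone. -/

set_option autoImplicit false

open Pool.Agent.K1H17.MC Module Set Filter Topology

namespace Pool.Agent.H57.MC

variable {V : Type*} [AddCommGroup V] [Module ℝ V] {Γ : Type*} [Group Γ]
  {Λ : AddSubgroup V} {C E : Set V} {ρ : Γ →* Module.End ℝ V} {ξ : V →ₗ[ℝ] ℝ}

/-- **Local finiteness.** Only finitely many translates of a rational polyhedral cone meet a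
neighbourhood of two given interior points. -/
theorem locfin (hC : Dat Λ C ρ ξ) {k : ℕ} {b : Fin k → V} (hb : ∀ i, b i ∈ Λ)
    (hspan : ∀ x, x ∈ Submodule.span ℝ (Set.range b))
    (hpos : ∀ x ∈ Λ, x ∈ C → x ≠ 0 → 1 ≤ ξ x) {x y : V} (hx : x ∈ inn C) (hy : y ∈ inn C) (B : ℝ)
    {n : ℕ} {t : Fin n → V} (ht : ∀ i, t i ∈ Λ) (htC : ∀ i, t i ∈ C) :
    {f : Module.End ℝ V | ∃ γ, ρ γ = f ∧ ∃ z, z ∈ f '' cn t ∧ ξ z ≤ B ∧
      ∀ φ : V →ₗ[ℝ] ℝ, (∀ w ∈ C, 0 ≤ φ w) → φ x ≤ 4 * φ z ∨ φ y ≤ 4 * φ z}.Finite := by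
  classical
  obtain ⟨M, hM⟩ : ∃ M : ℝ, M = ∑ i, ξ (t i) := ⟨_, rfl⟩
  have hM1 : ∀ i, ξ (t i) ≤ M := fun i => by
    rw [hM]
    exact Finset.single_le_sum (fun j _ => hC.nonneg _ (htC j)) (Finset.mem_univ i)
  have hM0 : 0 ≤ M := by
    rw [hM]
    exact Finset.sum_nonneg fun j _ => hC.nonneg _ (htC j)
  have h1 := hC.sublevel hb hspan hx (4 * (M * B))
  have h2 := hC.sublevel hb hspan hy (4 * (M * B))
  have hfib : ∀ η : V →ₗ[ℝ] ℝ,
      {f : Module.End ℝ V | ∃ γ, ρ γ = f ∧ ξ ∘ₗ ρ γ⁻¹ = η}.Finite := by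
    intro η
    by_cases hne : ∃ γ0, ξ ∘ₗ ρ γ0⁻¹ = η
    · obtain ⟨γ0, h0⟩ := hne
      refine (hC.stab.image fun g => ρ γ0 * g).subset ?_
      rintro f ⟨γ, rfl, hγ⟩
      refine ⟨ρ (γ0⁻¹ * γ), ⟨⟨_, rfl⟩, ?_⟩, ?_⟩
      · refine LinearMap.ext fun w => ?_
        rw [LinearMap.comp_apply, rho_mul]
        have h3 := congrArg (fun g : V →ₗ[ℝ] ℝ => g (ρ γ w)) (h0.trans hγ.symm)
        simp only [LinearMap.comp_apply] at h3
        rw [h3, rho_inv]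
      · change ρ γ0 * ρ (γ0⁻¹ * γ) = ρ γ
        rw [← map_mul, mul_inv_cancel_left]
    · refine Set.finite_empty.subset ?_
      rintro f ⟨γ, -, hγ⟩
      exact hne ⟨γ, hγ⟩
  have hfin := Set.Finite.biUnion (h1.union h2) fun η _ => hfib η
  refine hfin.subset ?_
  rintro f ⟨γ, rfl, z, ⟨q, ⟨a, ha, rfl⟩, rfl⟩, hzB, hφ⟩
  simp only [Set.mem_iUnion]
  refine ⟨ξ ∘ₗ ρ γ⁻¹, ?_, ⟨γ, rfl, rfl⟩⟩
  have h3 : (ξ ∘ₗ ρ γ⁻¹) (ρ γ (∑ i, a i • t i)) ≤ M * B := by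
    rw [LinearMap.comp_apply, rho_inv]
    refine le_trans ?_ (mul_le_mul_of_nonneg_left hzB hM0)
    rw [map_sum, map_sum, map_sum, Finset.mul_sum]
    refine Finset.sum_le_sum fun i _ => ?_
    rw [map_smul, map_smul, map_smul, smul_eq_mul, smul_eq_mul]
    by_cases hti : t i = 0
    · rw [hti, map_zero, map_zero, map_zero, mul_zero, mul_zero]
    · have h4 : ρ γ (t i) ≠ 0 := by
        intro h0
        apply hti
        have := rho_inv (ρ := ρ) γ (t i)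
        rw [h0, map_zero] at this
        exact this.symm
      have h5 := hpos _ (hC.stabΛ γ _ (ht i)) (hC.stabC γ _ (htC i)) h4
      have h6 := hM1 i
      have h7 := ha i
      calc a i * ξ (t i) ≤ a i * (M * ξ (ρ γ (t i))) := by
            refine mul_le_mul_of_nonneg_left (h6.trans ?_) h7
            nlinarith
        _ = M * (a i * ξ (ρ γ (t i))) := by ring
  rcases hφ (ξ ∘ₗ ρ γ⁻¹) (fun w hw => hC.nonneg _ (hC.stabC _ _ hw)) with h | h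
  · exact Or.inl ⟨⟨_, rfl⟩, by linarith⟩
  · exact Or.inr ⟨⟨_, rfl⟩, by linarith⟩

theorem ev_subsingleton {S : Set ℝ} (h : S.Subsingleton) : ∀ᶠ ε in 𝓝[>] (0 : ℝ), ε ∉ S := by
  by_cases hS : ∃ ε0, 0 < ε0 ∧ ε0 ∈ S
  · obtain ⟨ε0, h0, h1⟩ := hS
    filter_upwards [Ioo_mem_nhdsGT h0] with ε hε hεS
    exact hε.2.ne (h hεS h1)
  · push Not at hS
    filter_upwards [self_mem_nhdsWithin] with ε hε
    exact hS ε hε

theorem line_subsingleton {U : Submodule ℝ V} {y v : V} (hv : v ∉ U) :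
    {ε : ℝ | y + ε • v ∈ U}.Subsingleton := by
  intro a ha b hb
  by_contra hne
  apply hv
  have h1 : v = (a - b)⁻¹ • ((y + a • v) - (y + b • v)) := by
    have h2 : (y + a • v) - (y + b • v) = (a - b) • v := by module
    rw [h2, smul_smul, inv_mul_cancel₀ (sub_ne_zero.2 hne), one_smul]
  rw [h1]
  exact U.smul_mem _ (U.sub_mem ha hb)

theorem exists_avoid {J : Type*} [Finite J] (U : J → Submodule ℝ V) (hU : ∀ j, U j ≠ ⊤) :
    ∃ v, ∀ j, v ∉ U j := by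
  by_contra hcon
  push Not at hcon
  obtain ⟨j, hj⟩ := Subspace.exists_eq_top_of_iUnion_eq_univ (p := U) (by
    rw [Set.eq_univ_iff_forall]
    intro v
    obtain ⟨j, hj⟩ := hcon v
    exact mem_iUnion.2 ⟨j, hj⟩)
  exact hU j hj

theorem ev_not_cn {n : ℕ} {t : Fin n → V} {y v : V} (h : y ∉ cn t) :
    ∀ᶠ ε in 𝓝[>] (0 : ℝ), y + ε • v ∉ cn t := by
  by_contra hcon
  refine h (cn_closed t (v := v) fun δ hδ => ?_)
  by_contra h1
  push Not at h1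
  apply hcon
  filter_upwards [Ioo_mem_nhdsGT hδ] with ε hε
  exact h1 ε hε.1 hε.2

/-- The interior points on a ray which starts at an interior point. -/
theorem inn_ray (hE : IsCone E) {y v : V} {ε ε1 : ℝ} (hy : y ∈ inn E) (h1 : y + ε1 • v ∈ E)
    (hε : 0 < ε) (hε1 : ε < ε1) : y + ε • v ∈ inn E := by
  have h0 : 0 < ε1 := hε.trans hε1
  have h7 : y + ε • v = (1 - ε / ε1) • y + (ε / ε1) • (y + ε1 • v) := by
    rw [smul_add, smul_smul, div_mul_cancel₀ _ h0.ne', sub_smul, one_smul]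
    abel
  rw [h7]
  exact inn_add hE (inn_smul hE hy (by rw [sub_pos, div_lt_one h0]; exact hε1))
    (hE.smul _ (by positivity) _ h1)

theorem inn_seg (hE : IsCone E) {x y : V} (hx : x ∈ inn E) (hy : y ∈ inn E) {s : ℝ} (hs : 0 ≤ s)
    (hs1 : s ≤ 1) : (1 - s) • x + s • y ∈ inn E := by
  rcases hs.eq_or_lt with h | h
  · rw [← h, sub_zero, one_smul, zero_smul, add_zero]
    exact hx
  · rw [add_comm]
    exact inn_add hE (inn_smul hE hy h) (hE.smul _ (sub_nonneg.2 hs1) _ (inn_sub hx))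

/-- The transport of a wall. -/
theorem IsWall.comp {Q : Set V} {ℓ : V →ₗ[ℝ] ℝ} (γ : Γ) (h : IsWall (ρ γ '' Q) ℓ) :
    IsWall Q (ℓ ∘ₗ ρ γ) := by
  obtain ⟨h1, h2, h3⟩ := h
  refine ⟨?_, fun x hx => h2 _ ⟨x, hx, rfl⟩, fun x hx => ?_⟩
  · intro h0
    apply h1
    refine LinearMap.ext fun x => ?_
    have := congrArg (fun g : V →ₗ[ℝ] ℝ => g (ρ γ⁻¹ x)) h0
    simp only [LinearMap.comp_apply] at this
    rw [rho_inv'] at this
    exact this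
  · have h4 := h3 (ρ γ x) hx
    have h5 := Submodule.mem_map_of_mem (f := ρ γ⁻¹) h4
    rw [rho_inv, Submodule.map_span] at h5
    refine Submodule.span_mono ?_ h5
    rintro _ ⟨_, ⟨⟨q, hq, rfl⟩, hq0⟩, rfl⟩
    rw [rho_inv]
    exact ⟨hq, hq0⟩

/-- **The covering theorem.** -/
theorem cover (hC : Dat Λ C ρ ξ) {k : ℕ} {b : Fin k → V} (hb : ∀ i, b i ∈ Λ)
    (hspan : ∀ x, x ∈ Submodule.span ℝ (Set.range b))
    (hpos : ∀ x ∈ Λ, x ∈ C → x ≠ 0 → 1 ≤ ξ x)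
    (hE : IsCone E) (hEC : E ⊆ C) (hEρ : ∀ γ, ∀ x ∈ E, ρ γ x ∈ E) {κ : Type*} [Finite κ]
    {Q : κ → Set V} (hQ : ∀ i, RP Λ (Q i)) (hQC : ∀ i, Q i ⊆ C) {x : V} (hx : x ∈ inn E) {i0 : κ}
    (hx0 : x ∈ inn (Q i0))
    (hw : ∀ i (ℓ : V →ₗ[ℝ] ℝ), IsWall (Q i) ℓ → ∀ x ∈ Q i, ℓ x = 0 → x ∈ inn E →
      ∃ γ j, x ∈ ρ γ '' Q j ∧ ∃ p ∈ ρ γ '' Q j, ℓ p < 0) :
    ∀ y ∈ inn E, ∃ γ i, y ∈ ρ γ '' Q i := by
  classical
  intro y hy
  choose n t ht hQt using hQ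
  have htC : ∀ i j, t i j ∈ C := fun i j => hQC i (by rw [hQt]; exact gen_mem _ _)
  have hiEC : ∀ {z}, z ∈ inn E → z ∈ inn C := fun {z} hz v => by
    obtain ⟨ε, hε, h⟩ := hz v
    exact ⟨ε, hε, hEC h⟩
  obtain ⟨B, hB⟩ : ∃ B : ℝ, B = ξ x + ξ y + 1 := ⟨_, rfl⟩
  let Near : V → Prop := fun z => ∀ φ : V →ₗ[ℝ] ℝ, (∀ w ∈ C, 0 ≤ φ w) →
    φ x ≤ 4 * φ z ∨ φ y ≤ 4 * φ z
  let 𝓕 : Set (Module.End ℝ V × κ) := {p | (∃ γ, ρ γ = p.1 ∧ ∃ z, z ∈ p.1 '' cn (t p.2) ∧ ξ z ≤ B ∧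
    Near z)}
  have h𝓕 : 𝓕.Finite := by
    have h1 := Set.finite_iUnion fun i : κ =>
      (locfin hC hb hspan hpos (hiEC hx) (hiEC hy) B (ht i) (htC i)).prod (Set.finite_singleton i)
    refine h1.subset ?_
    rintro ⟨f, i⟩ h
    exact mem_iUnion.2 ⟨i, h, rfl⟩
  have hfin : Finite 𝓕 := h𝓕.to_subtype
  let u : ∀ a : 𝓕, Fin (n a.1.2) → V := fun a j => a.1.1 (t a.1.2 j)
  have hu : ∀ a : 𝓕, cn (u a) = a.1.1 '' cn (t a.1.2) := fun a => (cn_map _ _).symm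
  let J : Type _ := Σ a : 𝓕, Σ b : 𝓕, Finset (Fin (n a.1.2)) × Finset (Fin (n b.1.2))
  have hJ : Finite J := inferInstance
  let U : J → Submodule ℝ V := fun j =>
    (sp (u j.1) j.2.2.1 ⊓ sp (u j.2.1) j.2.2.2) ⊔ Submodule.span ℝ {x}
  obtain ⟨v, hv⟩ := exists_avoid (J := {j : J // U j ≠ ⊤}) (fun j => U j.1) fun j => j.2
  obtain ⟨ε1, hε1, hyv⟩ := hy v
  -- the start
  have hxnear : Near x := fun φ hφ => Or.inl (by linarith [hφ x (hEC (inn_sub hx))])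
  have hξx : 0 ≤ ξ x := hC.nonneg _ (hEC (inn_sub hx))
  have hξy : 0 ≤ ξ y := hC.nonneg _ (hEC (inn_sub hy))
  have hxF : ((ρ 1, i0) : Module.End ℝ V × κ) ∈ 𝓕 := by
    refine ⟨1, rfl, x, ?_, by linarith, hxnear⟩
    rw [← hQt, map_one]
    exact ⟨x, inn_sub hx0, rfl⟩
  by_contra hcon
  push Not at hcon
  have hnot : ∀ a : 𝓕, y ∉ cn (u a) := by
    rintro ⟨⟨f, i⟩, hfi⟩ h
    obtain ⟨γ, hγ, _⟩ := id hfi
    have hγ' : ρ γ = f := hγ
    rw [hu] at h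
    change y ∈ f '' cn (t i) at h
    rw [← hγ', ← hQt] at h
    exact hcon γ i h
  have e1 : ∀ᶠ ε in 𝓝[>] (0 : ℝ), ∀ a : 𝓕, y + ε • v ∉ cn (u a) :=
    Filter.eventually_all.2 fun a => ev_not_cn (hnot a)
  have e2 : ∀ᶠ ε in 𝓝[>] (0 : ℝ), ∀ j : {j : J // U j ≠ ⊤}, y + ε • v ∉ U j.1 :=
    Filter.eventually_all.2 fun j => ev_subsingleton (line_subsingleton (hv j))
  have e3 : ∀ᶠ ε in 𝓝[>] (0 : ℝ), ε ∈ Ioo 0 (ε1 / 2) := Ioo_mem_nhdsGT (by positivity)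
  have e4 : ∀ᶠ ε in 𝓝[>] (0 : ℝ), ε ∈ Ioo 0 (1 / (1 + |ξ v|)) := Ioo_mem_nhdsGT (by positivity)
  obtain ⟨ε, h1, h2, ⟨hε0, h3⟩, ⟨-, h4⟩⟩ := (e1.and (e2.and (e3.and e4))).exists
  have hyE : y + ε • v ∈ inn E := inn_ray hE hy hyv hε0 (by linarith)
  have hεξ : ε * ξ v ≤ 1 := by
    rw [lt_div_iff₀ (by positivity)] at h4
    nlinarith [le_abs_self (ξ v), abs_nonneg (ξ v)]
  -- the points of the segment
  have hnear : ∀ s : ℝ, 0 < s → s < 1 → Near ((1 - s) • x + s • (y + ε • v)) := by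
    intro s hs hs1 φ hφ
    have g1 := hφ _ (hEC hyv)
    rw [map_add, map_smul, smul_eq_mul] at g1
    have g2 := hφ _ (hEC (inn_sub hx))
    have g3 := hφ _ (hEC (inn_sub hy))
    have g4 : φ y / 2 ≤ φ y + ε * φ v := by
      have g5 : 0 ≤ (ε / ε1) * (φ y + ε1 * φ v) := mul_nonneg (by positivity) g1
      have g6 : (ε / ε1) * (φ y + ε1 * φ v) = (ε / ε1) * φ y + ε * φ v := by
        field_simp
      have g7 : ε / ε1 ≤ 1 / 2 := by
        rw [div_le_div_iff₀ hε1 (by norm_num)]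
        linarith
      nlinarith
    rw [map_add, map_smul, map_smul, map_add, map_smul, smul_eq_mul, smul_eq_mul, smul_eq_mul]
    rcases le_total s (1 / 2) with h | h
    · left
      nlinarith
    · right
      nlinarith
  have hξs : ∀ s : ℝ, 0 < s → s < 1 → ξ ((1 - s) • x + s • (y + ε • v)) ≤ B := by
    intro s hs hs1
    rw [map_add, map_smul, map_smul, map_add, map_smul, smul_eq_mul, smul_eq_mul, smul_eq_mul, hB]
    nlinarith
  obtain ⟨a, ha⟩ := segment u (x := x) (y := y + ε • v) (fun a b A B' hne =>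
      h2 ⟨⟨a, b, A, B'⟩, hne⟩)
    ⟨⟨_, hxF⟩, by
      rw [hu]
      change x ∈ inn (ρ 1 '' cn (t i0))
      rw [← hQt, map_one]
      have : (1 : Module.End ℝ V) '' Q i0 = Q i0 := by
        ext w
        simp
      rw [this]
      exact hx0⟩
    (by
      rintro s hs hs1 ⟨⟨f, i⟩, hfi⟩ hz ℓ hℓ hℓz
      obtain ⟨γ, hγ, _⟩ := id hfi
      have hγ' : ρ γ = f := hγ
      rw [hu] at hz hℓ
      change _ ∈ f '' cn (t i) at hz
      change IsWall (f '' cn (t i)) ℓ at hℓ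
      rw [← hγ', ← hQt] at hz hℓ
      have hzE := inn_seg hE hx hyE hs.le hs1.le
      obtain ⟨q, hq, hqz⟩ := hz
      have hqE : q ∈ inn E := by
        intro w
        obtain ⟨δ, hδ, h⟩ := hzE (ρ γ w)
        refine ⟨δ, hδ, ?_⟩
        have := hEρ γ⁻¹ _ h
        rwa [← hqz, ← map_smul, ← map_add, rho_inv] at this
      obtain ⟨g, j, hg1, p, hp1, hp2⟩ := hw i (ℓ ∘ₗ ρ γ) hℓ.comp q hq (by
        rw [LinearMap.comp_apply, hqz]; exact hℓz) hqE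
      have hgm : ∀ {w}, w ∈ ρ g '' Q j → ρ γ w ∈ ρ (γ * g) '' cn (t j) := by
        rintro _ ⟨w, hw, rfl⟩
        rw [← hQt]
        exact ⟨w, hw, by rw [rho_mul]⟩
      have hz2 : (1 - s) • x + s • (y + ε • v) ∈ ρ (γ * g) '' cn (t j) := by
        rw [← hqz]
        exact hgm hg1
      refine ⟨⟨(ρ (γ * g), j), γ * g, rfl, _, hz2, hξs s hs hs1, hnear s hs hs1⟩, ?_, ρ γ p, ?_, ?_⟩
      · rw [hu]
        exact hz2
      · rw [hu]
        exact hgm hp1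
      · exact hp2)
  exact h1 a ha

end Pool.Agent.H57.MC
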