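import Pool.Agent.H57.MC.Cov

/-! Every wall of a Dirichlet domain which meets the interior of the cone is crossed by one
translate of the domain, which contains the whole wall. -/

set_option autoImplicit false

open Pool.Agent.K1H17.MC Module Set Filter Topology

namespace Pool.Agent.H57.MC

variable {V : Type*} [AddCommGroup V] [Module ℝ V] {Γ : Type*} [Group Γ]
  {Λ : AddSubgroup V} {E : Set V} {ρ : Γ →* Module.End ℝ V} {ξ : V →ₗ[ℝ] ℝ}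

/-- The Dirichlet domain. -/
def Dir (E : Set V) (ρ : Γ →* Module.End ℝ V) (ξ : V →ₗ[ℝ] ℝ) : Set V :=
  {x | x ∈ E ∧ ∀ γ, ξ x ≤ ξ (ρ γ x)}

theorem Dir_cone (hE : IsCone E) : IsCone (Dir E ρ ξ) := by
  refine ⟨⟨hE.zero, fun γ => by simp⟩, ?_, ?_⟩
  · rintro x ⟨hx, hx'⟩ y ⟨hy, hy'⟩
    refine ⟨hE.add _ hx _ hy, fun γ => ?_⟩
    rw [map_add, map_add, map_add]
    exact add_le_add (hx' γ) (hy' γ)
  · rintro c hc x ⟨hx, hx'⟩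
    refine ⟨hE.smul _ hc _ hx, fun γ => ?_⟩
    rw [map_smul, map_smul, map_smul]
    exact mul_le_mul_of_nonneg_left (hx' γ) hc

/-- A rational polyhedral cone in the Dirichlet domain whose translates cover, and which is
invariant under the stabilizer. -/
theorem exists_dir (h : Dat Λ E ρ ξ) {Q : Set V} (hQ : RP Λ Q) (hQC : Q ⊆ E)
    (hcov : ∀ x ∈ E, ∃ γ, ∃ y ∈ Q, x = ρ γ y) :
    ∃ Q1 : Set V, RP Λ Q1 ∧ Q1 ⊆ Dir E ρ ξ ∧ (∀ γ, ξ ∘ₗ ρ γ = ξ → ∀ x ∈ Q1, ρ γ x ∈ Q1) ∧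
      ∀ x ∈ E, ∃ γ, ∃ y ∈ Q1, x = ρ γ y := by
  classical
  obtain ⟨n, t, ht, hQt⟩ := hQ
  have hgen : ∀ i, t i ∈ Q := fun i => by rw [hQt]; exact gen_mem t i
  obtain ⟨S, hS⟩ := h.fin_min t ht fun i => hQC (hgen i)
  rw [← hQt] at hS
  have hSne : S.Nonempty := by
    obtain ⟨s, hs, -⟩ := hS 1
    exact ⟨s, hs⟩
  let Qs : Γ → Set V := fun s => {x | x ∈ Q ∧ ∀ s' ∈ S, 0 ≤ (ξ ∘ₗ ρ s' - ξ ∘ₗ ρ s) x}
  have hQs : ∀ s, RP Λ (Qs s) := fun s => by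
    refine RP.cut_many ⟨n, t, ht, hQt⟩ S (fun s' => ξ ∘ₗ ρ s' - ξ ∘ₗ ρ s) fun s' _ x hx => ?_
    obtain ⟨m, hm⟩ := h.int _ (h.stabΛ s' x hx)
    obtain ⟨m', hm'⟩ := h.int _ (h.stabΛ s x hx)
    exact ⟨m - m', by
      rw [LinearMap.sub_apply, LinearMap.comp_apply, LinearMap.comp_apply, hm, hm']; push_cast; ring⟩
  have hQsD : ∀ s, ∀ x ∈ Qs s, ρ s x ∈ Dir E ρ ξ := by
    rintro s x ⟨hx, hx'⟩
    refine ⟨h.stabC _ _ (hQC hx), fun γ => ?_⟩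
    obtain ⟨s', hs', hle⟩ := hS (γ * s)
    have h1 := hx' s' hs'
    rw [LinearMap.sub_apply, LinearMap.comp_apply, LinearMap.comp_apply] at h1
    have h2 := hle x hx
    rw [rho_mul] at h2
    linarith
  let F : Set (Module.End ℝ V) := {f | (∃ γ, ρ γ = f) ∧ ξ ∘ₗ f = ξ}
  have hF : F.Finite := h.stab
  have hF1 : (1 : Module.End ℝ V) ∈ F := ⟨⟨1, map_one _⟩, rfl⟩
  have hFD : ∀ f ∈ F, ∀ x ∈ Dir E ρ ξ, f x ∈ Dir E ρ ξ := by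
    rintro _ ⟨⟨δ, rfl⟩, hδ⟩ x ⟨hx, hx'⟩
    refine ⟨h.stabC _ _ hx, fun γ => ?_⟩
    have h1 : ξ (ρ δ x) = ξ x := congrArg (fun g : V →ₗ[ℝ] ℝ => g x) hδ
    rw [h1, ← rho_mul]
    exact hx' _
  have hFmul : ∀ f ∈ F, ∀ g ∈ F, f * g ∈ F := by
    rintro _ ⟨⟨γ, rfl⟩, hγ⟩ _ ⟨⟨δ, rfl⟩, hδ⟩
    refine ⟨⟨γ * δ, map_mul _ _ _⟩, ?_⟩
    change (ξ ∘ₗ ρ γ) ∘ₗ ρ δ = ξ
    rw [hγ, hδ]
  have hFΛ : ∀ f ∈ F, ∀ x ∈ Λ, f x ∈ Λ := by
    rintro _ ⟨⟨δ, rfl⟩, hδ⟩ x hx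
    exact h.stabΛ _ _ hx
  have hFf : Finite F := hF.to_subtype
  obtain ⟨Q1, hQ1, hQ1s, hQ1m⟩ := sum_RP (Λ := Λ) (κ := F × S)
    (fun p => (p.1 : Module.End ℝ V) '' (ρ (p.2 : Γ) '' Qs p.2))
    fun p => ((hQs _).map _ (h.stabΛ _)).map _ (hFΛ _ p.1.2)
  have hQ1D : Q1 ⊆ Dir E ρ ξ := by
    refine hQ1m _ (Dir_cone h.cone) fun p => ?_
    rintro _ ⟨_, ⟨x, hx, rfl⟩, rfl⟩
    exact hFD _ p.1.2 _ (hQsD _ x hx)
  have hQ1F : ∀ f ∈ F, ∀ x ∈ Q1, f x ∈ Q1 := by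
    intro f hf
    have hc : IsCone {x | f x ∈ Q1} := by
      refine ⟨?_, ?_, ?_⟩
      · change f 0 ∈ Q1
        rw [map_zero]
        exact hQ1.cone.zero
      · intro x hx y hy
        change f (x + y) ∈ Q1
        rw [map_add]
        exact hQ1.cone.add _ hx _ hy
      · intro c hc x hx
        change f (c • x) ∈ Q1
        rw [map_smul]
        exact hQ1.cone.smul _ hc _ hx
    refine hQ1m _ hc fun p => ?_
    rintro _ ⟨_, ⟨x, hx, rfl⟩, rfl⟩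
    exact hQ1s (⟨f * p.1, hFmul _ hf _ p.1.2⟩, p.2) ⟨_, ⟨x, hx, rfl⟩, rfl⟩
  refine ⟨Q1, hQ1, hQ1D, fun γ hγ => hQ1F _ ⟨⟨γ, rfl⟩, hγ⟩, fun x hx => ?_⟩
  obtain ⟨γ, y, hy, rfl⟩ := hcov x hx
  obtain ⟨s, hs, hmin⟩ := S.exists_min_image (fun s => ξ (ρ s y)) hSne
  have hyS : y ∈ Qs s := ⟨hy, fun s' hs' => by
    rw [LinearMap.sub_apply, LinearMap.comp_apply, LinearMap.comp_apply, sub_nonneg]
    exact hmin s' hs'⟩
  have hu : ρ s y ∈ Q1 := hQ1s (⟨1, hF1⟩, ⟨s, hs⟩) ⟨_, ⟨y, hyS, rfl⟩, rfl⟩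
  exact ⟨γ * s⁻¹, _, hu, by rw [rho_mul, rho_inv]⟩

/-- The sum of generators which span is an interior point. -/
theorem inn_of_span {n : ℕ} {t : Fin n → V} (h : ∀ x, x ∈ Submodule.span ℝ (Set.range t)) :
    ∑ i, t i ∈ inn (cn t) := by
  intro v
  obtain ⟨c, hc⟩ := (Submodule.mem_span_range_iff_exists_fun ℝ).1 (h v)
  have hpos : 0 < 1 + ∑ j, |c j| := by
    have : 0 ≤ ∑ j, |c j| := Finset.sum_nonneg fun j _ => abs_nonneg _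
    linarith
  refine ⟨1 / (1 + ∑ j, |c j|), by positivity, fun i => 1 + 1 / (1 + ∑ j, |c j|) * c i,
    fun i => ?_, ?_⟩
  · have h1 : |c i| ≤ ∑ j, |c j| :=
      Finset.single_le_sum (f := fun j => |c j|) (fun j _ => abs_nonneg _) (Finset.mem_univ i)
    have h2 : -|c i| ≤ c i := neg_abs_le _
    have h3 : 1 + 1 / (1 + ∑ j, |c j|) * c i = (1 + ∑ j, |c j| + c i) / (1 + ∑ j, |c j|) := by
      field_simp
    change 0 ≤ 1 + 1 / (1 + ∑ j, |c j|) * c i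
    rw [h3]
    exact div_nonneg (by linarith) hpos.le
  · rw [← hc, Finset.smul_sum, ← Finset.sum_add_distrib]
    exact Finset.sum_congr rfl fun i _ => by rw [add_smul, one_smul, smul_smul]

/-- One translate near an interior point `x` contains the points `x + ε • v` for arbitrarily small
`ε`. -/
theorem one_translate (hC : Dat Λ E ρ ξ) {k : ℕ} {b : Fin k → V} (hb : ∀ i, b i ∈ Λ)
    (hspan : ∀ x, x ∈ Submodule.span ℝ (Set.range b))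
    (hpos : ∀ x ∈ Λ, x ∈ E → x ≠ 0 → 1 ≤ ξ x) {n : ℕ} {t : Fin n → V} (ht : ∀ i, t i ∈ Λ)
    (htE : ∀ i, t i ∈ E) (hcov : ∀ x ∈ E, ∃ γ, ∃ y ∈ cn t, x = ρ γ y) {x : V} (hx : x ∈ inn E) :
    ∃ 𝓕 : Set (Module.End ℝ V), 𝓕.Finite ∧ (∀ f ∈ 𝓕, ∃ γ, ρ γ = f) ∧
      ∀ v, ∀ᶠ ε in 𝓝[>] (0 : ℝ), ∃ f ∈ 𝓕, x + ε • v ∈ f '' cn t := by
  refine ⟨_, locfin hC hb hspan hpos hx hx (ξ x + 1) ht htE, ?_, fun v => ?_⟩
  · rintro f ⟨γ, hγ, -⟩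
    exact ⟨γ, hγ⟩
  · obtain ⟨ε1, hε1, hxv⟩ := hx v
    filter_upwards [Ioo_mem_nhdsGT (show (0 : ℝ) < ε1 / 2 by positivity),
      Ioo_mem_nhdsGT (show (0 : ℝ) < 1 / (1 + |ξ v|) by positivity)] with ε h1 h2
    have hxE : x + ε • v ∈ E := inn_sub (inn_ray hC.cone hx hxv h1.1 (by linarith [h1.2]))
    obtain ⟨γ, y, hy, hxy⟩ := hcov _ hxE
    refine ⟨ρ γ, ⟨γ, rfl, x + ε • v, ⟨y, hy, hxy.symm⟩, ?_, fun φ hφ => Or.inl ?_⟩,
      ⟨y, hy, hxy.symm⟩⟩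
    · have h3 : ε * ξ v ≤ 1 := by
        have h4 := h2.2
        rw [lt_div_iff₀ (by positivity)] at h4
        nlinarith [le_abs_self (ξ v), abs_nonneg (ξ v), h2.1]
      rw [map_add, map_smul, smul_eq_mul]
      linarith
    · have g1 := hφ _ hxv
      rw [map_add, map_smul, smul_eq_mul] at g1
      have g3 := hφ _ (inn_sub hx)
      have g5 : 0 ≤ (ε / ε1) * (φ x + ε1 * φ v) := mul_nonneg (div_nonneg h1.1.le hε1.le) g1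
      have g6 : (ε / ε1) * (φ x + ε1 * φ v) = (ε / ε1) * φ x + ε * φ v := by
        field_simp
      have g7 : ε / ε1 ≤ 1 / 2 := by
        rw [div_le_div_iff₀ hε1 (by norm_num)]
        linarith [h1.2]
      rw [map_add, map_smul, smul_eq_mul]
      nlinarith

/-- **The walls of a Dirichlet domain.** -/
theorem walls (h : Dat Λ E ρ ξ) {k : ℕ} {b : Fin k → V} (hb : ∀ i, b i ∈ Λ)
    (hspan : ∀ x, x ∈ Submodule.span ℝ (Set.range b))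
    (hpos : ∀ x ∈ Λ, x ∈ E → x ≠ 0 → 1 ≤ ξ x) {e : V} (he : e ∈ inn E) {Q : Set V} (hQ : RP Λ Q)
    (hQE : Q ⊆ E) (hcov : ∀ x ∈ E, ∃ γ, ∃ y ∈ Q, x = ρ γ y) :
    ∃ Q1 : Set V, RP Λ Q1 ∧ Q1 ⊆ E ∧ (inn Q1).Nonempty ∧
      ∀ ℓ : V →ₗ[ℝ] ℝ, IsWall Q1 ℓ → (∃ x ∈ Q1, ℓ x = 0 ∧ x ∈ inn E) →
        ∃ γ, (∀ x ∈ Q1, ℓ x = 0 → x ∈ ρ γ '' Q1) ∧ ∃ p ∈ ρ γ '' Q1, ℓ p < 0 := by
  classical
  obtain ⟨Q1, hQ1, hQ1D, hQ1F, hQ1cov⟩ := exists_dir h hQ hQE hcov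
  obtain ⟨n, t, ht, hQt⟩ := id hQ1
  have htE : ∀ i, t i ∈ E := fun i => (hQ1D (by rw [hQt]; exact gen_mem t i)).1
  have hcov1 : ∀ x ∈ E, ∃ γ, ∃ y ∈ cn t, x = ρ γ y := fun x hx => by
    obtain ⟨γ, y, hy, h1⟩ := hQ1cov x hx
    exact ⟨γ, y, by rw [← hQt]; exact hy, h1⟩
  -- interior points
  have hspt : ∀ x, x ∈ Submodule.span ℝ (Set.range t) := by
    by_contra hcon
    push Not at hcon
    obtain ⟨x0, hx0⟩ := hcon
    obtain ⟨𝓕, h𝓕, h𝓕ρ, h𝓕v⟩ := one_translate h hb hspan hpos ht htE hcov1 he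
    have hfin : Finite 𝓕 := h𝓕.to_subtype
    let U : 𝓕 → Submodule ℝ V := fun f => (Submodule.span ℝ (Set.range t)).map f.1
    obtain ⟨v, hv⟩ := exists_avoid U (by
      rintro ⟨f, hf⟩ htop
      obtain ⟨γ, hγ⟩ := h𝓕ρ f hf
      have h1 : f x0 ∈ U ⟨f, hf⟩ := by rw [htop]; trivial
      obtain ⟨y, hy, hy'⟩ := h1
      apply hx0
      change f y = f x0 at hy'
      rw [← hγ] at hy'
      have h2 := congrArg (ρ γ⁻¹) hy'
      rw [rho_inv, rho_inv] at h2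
      rw [← h2]
      exact hy)
    have e2 : ∀ᶠ ε in 𝓝[>] (0 : ℝ), ∀ f : 𝓕, e + ε • v ∉ U f :=
      Filter.eventually_all.2 fun f => ev_subsingleton (line_subsingleton (hv f))
    obtain ⟨ε, ⟨f, hf, h1⟩, h2⟩ := ((h𝓕v v).and e2).exists
    refine h2 ⟨f, hf⟩ ?_
    obtain ⟨y, ⟨a, ha, rfl⟩, hy'⟩ := h1
    rw [← hy']
    exact Submodule.mem_map_of_mem (Submodule.sum_mem _ fun i _ => Submodule.smul_mem _ _
      (Submodule.subset_span ⟨i, rfl⟩))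
  have hd := inn_of_span hspt
  rw [← hQt] at hd
  -- the Dirichlet domain is the cone
  have hinn : ∀ y ∈ inn (Dir E ρ ξ), y ∈ Q1 := by
    intro y hy
    obtain ⟨γ, q, hq, hyq⟩ := hQ1cov y (inn_sub hy).1
    have h0 : (ξ ∘ₗ ρ γ⁻¹ - ξ) y = 0 := by
      rw [LinearMap.sub_apply, LinearMap.comp_apply]
      have h1 := (inn_sub hy).2 γ⁻¹
      have h2 := (hQ1D hq).2 γ
      rw [← hyq] at h2
      have h3 : ρ γ⁻¹ y = q := by rw [hyq, rho_inv]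
      rw [h3] at h1 ⊢
      linarith
    have hge : ∀ v, 0 ≤ (ξ ∘ₗ ρ γ⁻¹ - ξ) v := by
      intro v
      obtain ⟨ε, hε, h1⟩ := hy v
      have h2 := h1.2 γ⁻¹
      have h3 : 0 ≤ (ξ ∘ₗ ρ γ⁻¹ - ξ) (y + ε • v) := by
        rw [LinearMap.sub_apply, LinearMap.comp_apply]
        linarith
      rw [map_add, h0, zero_add, map_smul, smul_eq_mul] at h3
      exact nonneg_of_mul_nonneg_right h3 hε
    have hinv : ξ ∘ₗ ρ γ⁻¹ = ξ := by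
      refine LinearMap.ext fun v => ?_
      have h1 := hge v
      have h2 := hge (-v)
      rw [map_neg] at h2
      rw [LinearMap.sub_apply] at h1 h2
      linarith
    have hinv' : ξ ∘ₗ ρ γ = ξ := by
      refine LinearMap.ext fun v => ?_
      have h1 := congrArg (fun g : V →ₗ[ℝ] ℝ => g (ρ γ v)) hinv
      simp only [LinearMap.comp_apply] at h1
      rw [rho_inv] at h1
      rw [LinearMap.comp_apply, h1]
    rw [hyq]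
    exact hQ1F γ hinv' q hq
  have hDQ : ∀ x ∈ Dir E ρ ξ, x ∈ Q1 := by
    intro x hx
    rw [hQt]
    refine cn_closed t (v := ∑ i, t i) fun δ hδ => ⟨δ / 2, by positivity, by linarith, ?_⟩
    rw [← hQt]
    refine hinn _ ?_
    have h1 : (∑ i, t i) ∈ inn (Dir E ρ ξ) := fun v => by
      obtain ⟨ε, hε, h2⟩ := hd v
      exact ⟨ε, hε, hQ1D h2⟩
    rw [add_comm]
    exact inn_add (Dir_cone h.cone) (inn_smul (Dir_cone h.cone) h1 (by positivity)) hx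
  refine ⟨Q1, hQ1, fun x hx => (hQ1D hx).1, ⟨_, hd⟩, ?_⟩
  rintro ℓ ⟨hℓ1, hℓ2, -⟩ ⟨x1, hx1, hx10, hx1i⟩
  have hℓt : ∀ i, 0 ≤ ℓ (t i) := fun i => hℓ2 _ (by rw [hQt]; exact gen_mem t i)
  obtain ⟨x, hxdef⟩ : ∃ x, x = x1 + ∑ i ∈ Finset.univ.filter (fun i => ℓ (t i) = 0), t i :=
    ⟨_, rfl⟩
  have hsumE : ∑ i ∈ Finset.univ.filter (fun i => ℓ (t i) = 0), t i ∈ Q1 := by
    refine hQ1.cone.sum _ _ fun i _ => ?_
    rw [hQt]
    exact gen_mem t i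
  have hxQ : x ∈ Q1 := by
    rw [hxdef]
    exact hQ1.cone.add _ hx1 _ hsumE
  have hxi : x ∈ inn E := by
    rw [hxdef]
    exact inn_add h.cone hx1i (hQ1D hsumE).1
  have hx0 : ℓ x = 0 := by
    rw [hxdef, map_add, hx10, zero_add, map_sum]
    exact Finset.sum_eq_zero fun i hi => (Finset.mem_filter.1 hi).2
  obtain ⟨v, hv⟩ : ∃ v, ℓ v < 0 := by
    by_contra hcon
    push Not at hcon
    apply hℓ1
    refine LinearMap.ext fun v => ?_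
    have h1 := hcon v
    have h2 := hcon (-v)
    rw [map_neg] at h2
    rw [LinearMap.zero_apply]
    linarith
  obtain ⟨𝓕, h𝓕, h𝓕ρ, h𝓕v⟩ := one_translate h hb hspan hpos ht htE hcov1 hxi
  have hfin : Finite 𝓕 := h𝓕.to_subtype
  -- one element occurs for arbitrarily small `ε`
  obtain ⟨f, hf, hfreq⟩ : ∃ f ∈ 𝓕, ∃ᶠ ε in 𝓝[>] (0 : ℝ), x + ε • v ∈ f '' cn t := by
    by_contra hcon
    push Not at hcon
    have h1 : ∀ᶠ ε in 𝓝[>] (0 : ℝ), ∀ f : 𝓕, x + ε • v ∉ f.1 '' cn t :=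
      Filter.eventually_all.2 fun f => hcon f.1 f.2
    obtain ⟨ε, ⟨f, hf, h2⟩, h3⟩ := ((h𝓕v v).and h1).exists
    exact h3 ⟨f, hf⟩ h2
  obtain ⟨δ, rfl⟩ := h𝓕ρ f hf
  have hsmall : ∀ r : ℝ, 0 < r → ∃ ε : ℝ, 0 < ε ∧ ε < r ∧ x + ε • v ∈ ρ δ '' cn t := by
    intro r hr
    obtain ⟨ε, h1, h2⟩ := (hfreq.and_eventually (Ioo_mem_nhdsGT hr)).exists
    exact ⟨ε, h2.1, h2.2, h1⟩
  have hxδ : x ∈ ρ δ '' cn t := by
    rw [cn_map]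
    refine cn_closed _ (v := v) fun r hr => ?_
    rw [← cn_map]
    exact hsmall r hr
  refine ⟨δ, ?_, ?_⟩
  · -- the wall
    have hφD : ∀ w ∈ Q1, 0 ≤ (ξ ∘ₗ ρ δ⁻¹ - ξ) w := by
      intro w hw
      rw [LinearMap.sub_apply, LinearMap.comp_apply, sub_nonneg]
      exact (hQ1D hw).2 _
    have hφx : (ξ ∘ₗ ρ δ⁻¹ - ξ) x = 0 := by
      refine le_antisymm ?_ (hφD x hxQ)
      obtain ⟨q, hq, hqx⟩ := hxδ
      rw [← hQt] at hq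
      have h1 := (hQ1D hq).2 δ
      rw [LinearMap.sub_apply, LinearMap.comp_apply, ← hqx, rho_inv]
      linarith
    have hφt : ∀ i, ℓ (t i) = 0 → (ξ ∘ₗ ρ δ⁻¹ - ξ) (t i) = 0 := by
      have h1 : (ξ ∘ₗ ρ δ⁻¹ - ξ) x1 + ∑ i ∈ Finset.univ.filter (fun i => ℓ (t i) = 0),
          (ξ ∘ₗ ρ δ⁻¹ - ξ) (t i) = 0 := by
        rw [← map_sum, ← map_add, ← hxdef]
        exact hφx
      have h2 := hφD x1 hx1
      have h3 : ∀ i ∈ Finset.univ.filter (fun i => ℓ (t i) = 0),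
          0 ≤ (ξ ∘ₗ ρ δ⁻¹ - ξ) (t i) := fun i _ => hφD _ (by rw [hQt]; exact gen_mem t i)
      have h4 := Finset.sum_nonneg h3
      have h5 : ∑ i ∈ Finset.univ.filter (fun i => ℓ (t i) = 0), (ξ ∘ₗ ρ δ⁻¹ - ξ) (t i) = 0 := by
        linarith
      intro i hi
      exact (Finset.sum_eq_zero_iff_of_nonneg h3).1 h5 i (by simp [hi])
    intro w hw hw0
    have hφw : (ξ ∘ₗ ρ δ⁻¹ - ξ) w = 0 := by
      have hw' := hw
      rw [hQt] at hw'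
      obtain ⟨a, ha, hwa, ha0⟩ := face hℓt hw' hw0
      rw [hwa, map_sum]
      refine Finset.sum_eq_zero fun i _ => ?_
      rw [map_smul, smul_eq_mul]
      by_cases hi : ℓ (t i) = 0
      · rw [hφt i hi, mul_zero]
      · rw [ha0 i hi, zero_mul]
    refine ⟨ρ δ⁻¹ w, hDQ _ ⟨h.stabC _ _ (hQ1D hw).1, fun γ => ?_⟩, rho_inv' _ _⟩
    rw [LinearMap.sub_apply, LinearMap.comp_apply] at hφw
    have h1 := (hQ1D hw).2 (γ * δ⁻¹)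
    rw [rho_mul] at h1
    linarith
  · obtain ⟨ε, hε, -, h1⟩ := hsmall 1 one_pos
    refine ⟨x + ε • v, by rw [hQt]; exact h1, ?_⟩
    rw [map_add, hx0, zero_add, map_smul, smul_eq_mul]
    exact mul_neg_of_pos_of_neg hε hv

end Pool.Agent.H57.MC
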