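import Pool.Agent.H57.MC.Dir

/-! The criterion for the movable cone. -/

set_option autoImplicit false
set_option linter.overlappingInstances false

open FF Pool.Agent.K1H17.MC Module Set

namespace Pool.Agent.H57.MC

variable {k K : Type} [Field k] [Field K] [Algebra k K] {P : Set (Place k K)}

theorem ample_inn_Mov {H : P →₀ ℤ} (hH : ∀ D : P →₀ ℤ, ∃ m : ℕ, 1 ≤ m ∧ Movable P (m • H + D)) :
    cls P (rl P H) ∈ inn (Mov P) := by
  intro v
  obtain ⟨D, rfl⟩ := cls_surj v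
  obtain ⟨c, hc, h⟩ := unit_mov hH D
  refine ⟨c⁻¹, inv_pos.2 hc, ⟨c⁻¹ • (c • rl P H + D), (cg_cone _).smul _
    (inv_pos.2 hc).le _ h, ?_⟩⟩
  rw [smul_add, smul_smul, inv_mul_cancel₀ hc.ne', one_smul, map_add, map_smul]

/-- The closure of a convex cone with an interior point has no other interior points. -/
theorem inn_clo {V : Type*} [AddCommGroup V] [Module ℝ V] {C : Set V} (hC : IsCone C) {h : V}
    (hh : h ∈ inn C) {x : V} (hx : x ∈ inn (clo C)) : x ∈ inn C := by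
  have key : ∀ y ∈ inn (clo C), y ∈ C := by
    intro y hy
    obtain ⟨ε, hε, c, hc⟩ := hy (-h)
    obtain ⟨δ, hδ, h1⟩ := inn_smul hC hh hε (-c)
    have h2 := hC.add _ (hc δ hδ) _ h1
    have h3 : y + ε • -h + δ • c + (ε • h + δ • -c) = y := by
      rw [smul_neg, smul_neg]
      abel
    rwa [h3] at h2
  intro v
  obtain ⟨ε, hε, h1⟩ := hx v
  exact ⟨ε / 2, by positivity, key _ (inn_ray (clo_cone hC) hx h1 (by positivity) (by linarith))⟩

theorem inn_mono {V : Type*} [AddCommGroup V] [Module ℝ V] {C D : Set V} (h : C ⊆ D) :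
    inn C ⊆ inn D := fun x hx v => by
  obtain ⟨ε, hε, h1⟩ := hx v
  exact ⟨ε, hε, h h1⟩

theorem pos_clo {n : ℕ} {b : Basis (Fin n) ℝ (N1 P)} {ξ : N1 P →ₗ[ℝ] ℝ}
    (hbz : ∀ x ∈ lat P, ∀ i, ∃ z : ℤ, b.repr x i = z)
    (hξE : ∀ x ∈ Eff P, ∀ i, |b.repr x i| ≤ ξ x) (hint : ∀ x ∈ lat P, ∃ m : ℤ, ξ x = m) :
    ∀ x ∈ lat P, x ∈ clo (Mov P) → x ≠ 0 → 1 ≤ ξ x := by
  rintro x hx ⟨c, hc⟩ hx0
  have h1 : ∀ i, |b.repr x i| ≤ ξ x := by
    intro i
    have h2 : ∀ ε : ℝ, 0 < ε → |b.repr x i| ≤ ξ x + ε * (ξ c + |b.repr c i|) := by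
      intro ε hε
      have h3 := hξE _ (Mov_sub_MovE (hc ε hε)).2 i
      rw [map_add, map_smul, map_add, map_smul, smul_eq_mul, Finsupp.add_apply, Finsupp.smul_apply,
        smul_eq_mul] at h3
      have h4 : |b.repr x i| ≤ |b.repr x i + ε * b.repr c i| + ε * |b.repr c i| := by
        have h5 := abs_sub (b.repr x i + ε * b.repr c i) (ε * b.repr c i)
        rw [add_sub_cancel_right, abs_mul, abs_of_pos hε] at h5
        exact h5
      nlinarith
    obtain ⟨d, hd⟩ : ∃ d, d = ξ c + |b.repr c i| := ⟨_, rfl⟩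
    rw [← hd] at h2
    by_contra hcon
    push Not at hcon
    have h3 := h2 ((|b.repr x i| - ξ x) / (2 * (1 + |d|)))
      (div_pos (by linarith) (by positivity))
    have h4 : (|b.repr x i| - ξ x) / (2 * (1 + |d|)) * d ≤ (|b.repr x i| - ξ x) / 2 := by
      have h5 : (|b.repr x i| - ξ x) / (2 * (1 + |d|)) * d ≤
          (|b.repr x i| - ξ x) / (2 * (1 + |d|)) * (1 + |d|) :=
        mul_le_mul_of_nonneg_left (by linarith [le_abs_self d])
          (div_nonneg (by linarith) (by positivity))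
      have h6 : (|b.repr x i| - ξ x) / (2 * (1 + |d|)) * (1 + |d|) = (|b.repr x i| - ξ x) / 2 := by
        have : (1 + |d|) ≠ 0 := by positivity
        field_simp
      linarith
    linarith
  obtain ⟨m, hm⟩ := hint x hx
  by_contra hcon
  push Not at hcon
  apply hx0
  refine b.ext_elem fun i => ?_
  rw [map_zero, Finsupp.zero_apply]
  obtain ⟨z, hz⟩ := hbz x hx i
  have h3 := h1 i
  rw [hm] at h3 hcon
  have h4 : m < 1 := by exact_mod_cast hcon
  have h5 : (0 : ℝ) ≤ m := (abs_nonneg _).trans h3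
  have h6 : 0 ≤ m := by exact_mod_cast h5
  have h7 : m = 0 := by omega
  rw [h7, Int.cast_zero] at h3
  exact abs_eq_zero.1 (le_antisymm h3 (abs_nonneg _))

/-- The covering theorem for the movable cone. -/
theorem cover_mov (hample : HasAmple P) (hbase : HasBase P) {κ : Type} [Finite κ]
    {Q : κ → Set (N1 P)} (hQ : ∀ i, RP (lat P) (Q i)) (hQM : ∀ i, Q i ⊆ clo (Mov P))
    (hne : ∃ i, (inn (Q i)).Nonempty)
    (hw : ∀ i (ℓ : N1 P →ₗ[ℝ] ℝ), IsWall (Q i) ℓ → ∀ x ∈ Q i, ℓ x = 0 → x ∈ inn (MovE P) →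
      ∃ (g : psAut P) (j : κ), x ∈ act g '' Q j ∧ ∃ p ∈ act g '' Q j, ℓ p < 0) :
    (∀ x ∈ MovE P, ∃ (g : psAut P) (i : κ), x ∈ act g '' Q i) ∧
      ((∀ i, Q i ⊆ Eff P) → MovableConeConjecture P) := by
  obtain ⟨n, b, ξ, hb, hbz, hξE, hξ0, hdat⟩ := exists_datE hample hbase
  obtain ⟨H, hH⟩ := id hample
  refine big_main hample hbase hQ hQM ?_
  obtain ⟨i0, x0, hx0⟩ := hne
  have hx0' : x0 ∈ inn (MovE P) :=
    inn_mono Mov_sub_MovE (inn_clo Mov_cone (ample_inn_Mov hH) (inn_mono (hQM i0) hx0))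
  exact cover (dat_clo hdat) hb (fun x => by rw [b.span_eq]; trivial)
    (pos_clo hbz hξE hdat.int) MovE_cone (fun x hx => hx.1) (fun g x hx => rho_MovE g hx) hQ hQM
    hx0' hx0 hw

/-- A fundamental domain which is crossed at every wall by one automorphism. -/
theorem walls_mov (hample : HasAmple P) (hbase : HasBase P) (h : MovableConeConjecture P) :
    ∃ Q : Set (N1 P), RP (lat P) Q ∧ Q ⊆ MovE P ∧ (inn Q).Nonempty ∧
      ∀ ℓ : N1 P →ₗ[ℝ] ℝ, IsWall Q ℓ → (∃ x ∈ Q, ℓ x = 0 ∧ x ∈ inn (MovE P)) →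
        ∃ g : psAut P, (∀ x ∈ Q, ℓ x = 0 → x ∈ act g '' Q) ∧ ∃ p ∈ act g '' Q, ℓ p < 0 := by
  obtain ⟨n, b, ξ, hb, hbz, hξE, hξ0, hdat⟩ := exists_datE hample hbase
  obtain ⟨H, hH⟩ := id hample
  obtain ⟨Q, hQ, hQ1, -⟩ := h
  have hQE : Q ⊆ MovE P := by
    intro x hx
    rw [← hQ1]
    refine Set.mem_iUnion.2 ⟨1, x, hx, ?_⟩
    change rho P 1 x = x
    rw [map_one]
    rfl
  exact walls hdat hb (fun x => by rw [b.span_eq]; trivial)
    (fun x hx hxE => pos_clo hbz hξE hdat.int x hx hxE.1) (ample_inn hH) hQ hQE fun x hx => by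
      rw [← hQ1] at hx
      obtain ⟨g, y, hy, h⟩ := Set.mem_iUnion.1 hx
      exact ⟨g, y, hy, h.symm⟩

end Pool.Agent.H57.MC
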