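import Pool.Graph.R_pool_sql_team_seeded_efc1946e.K1H17.MC.Bg

/-! Walls of polyhedral cones, and segments which leave a union of polyhedral cones through a
wall. -/

set_option autoImplicit false

open Pool.Agent.K1H17.MC Module Set

namespace Pool.Agent.H57.MC

variable {V : Type*} [AddCommGroup V] [Module ℝ V]

/-- The linear form `ℓ` defines a wall of the convex cone `C`: it is nonnegative on `C`, and the
classes of `C` on which it vanishes span the hyperplane `ℓ = 0`. -/
def IsWall (C : Set V) (ℓ : V →ₗ[ℝ] ℝ) : Prop :=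
  ℓ ≠ 0 ∧ (∀ x ∈ C, 0 ≤ ℓ x) ∧ ∀ x, ℓ x = 0 → x ∈ Submodule.span ℝ {y | y ∈ C ∧ ℓ y = 0}

theorem cn_dual {n : ℕ} (t : Fin n → V) {x : V}
    (h : ∀ φ : V →ₗ[ℝ] ℝ, (∀ i, 0 ≤ φ (t i)) → 0 ≤ φ x) : x ∈ cn t := by
  obtain ⟨w, hw, hf⟩ := H575R2.farkas_lin (U := Module.Dual ℝ V) n
    (fun i => Module.Dual.eval ℝ V (t i)) (Module.Dual.eval ℝ V x) (by
      intro φ hφ
      have h1 := h (-φ) fun i => by
        have := hφ i
        rw [Module.Dual.eval_apply] at this
        rw [LinearMap.neg_apply]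
        linarith
      rw [LinearMap.neg_apply] at h1
      rw [Module.Dual.eval_apply]
      linarith)
  refine ⟨w, hw, ?_⟩
  rw [← sub_eq_zero, ← Module.forall_dual_apply_eq_zero_iff ℝ]
  intro φ
  have h1 := hf φ
  simp only [Module.Dual.eval_apply] at h1
  rw [map_sub, h1, map_sum, sub_eq_zero]
  exact Finset.sum_congr rfl fun i _ => by rw [map_smul, smul_eq_mul]

theorem nonneg_cn {n : ℕ} {t : Fin n → V} {φ : V →ₗ[ℝ] ℝ} (h : ∀ i, 0 ≤ φ (t i)) {x : V}
    (hx : x ∈ cn t) : 0 ≤ φ x := by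
  obtain ⟨a, ha, rfl⟩ := hx
  rw [map_sum]
  refine Finset.sum_nonneg fun i _ => ?_
  rw [map_smul, smul_eq_mul]
  exact mul_nonneg (ha i) (h i)

/-- A direction which leaves a polyhedral cone at a point is negative for a linear form which is
nonnegative on the cone and vanishes at the point. -/
theorem support {n : ℕ} {t : Fin n → V} {z d : V} (hz : z ∈ cn t)
    (hd : ∀ ε : ℝ, 0 < ε → z + ε • d ∉ cn t) :
    ∃ ℓ : V →ₗ[ℝ] ℝ, (∀ i, 0 ≤ ℓ (t i)) ∧ ℓ z = 0 ∧ ℓ d < 0 := by
  have hd' : d ∉ cn (Fin.cons (-z) t : Fin (n + 1) → V) := by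
    rintro ⟨a, ha, hda⟩
    rw [Fin.sum_univ_succ] at hda
    simp only [Fin.cons_zero, Fin.cons_succ] at hda
    have hpos : 0 < 1 + a 0 := by linarith [ha 0]
    refine hd (1 / (1 + a 0)) (by positivity) ?_
    have h1 : z + (1 / (1 + a 0)) • d =
        (1 / (1 + a 0)) • z + (1 / (1 + a 0)) • ∑ i : Fin n, a i.succ • t i := by
      rw [hda, smul_add, smul_neg, smul_neg, smul_smul, ← add_assoc, ← sub_eq_add_neg]
      congr 1
      nth_rewrite 1 [← one_smul ℝ z]
      rw [← sub_smul]
      congr 1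
      field_simp
      ring
    rw [h1]
    exact (cn_cone t).add _ ((cn_cone t).smul _ (by positivity) _ hz) _
      ((cn_cone t).smul _ (by positivity) _ ⟨fun i => a i.succ, fun i => ha _, rfl⟩)
  by_contra hcon
  push Not at hcon
  refine hd' (cn_dual _ fun φ hφ => ?_)
  have h0 := hφ 0
  rw [Fin.cons_zero, map_neg] at h0
  have h1 : ∀ i, 0 ≤ φ (t i) := fun i => by
    have := hφ i.succ
    rwa [Fin.cons_succ] at this
  exact hcon φ h1 (le_antisymm (by linarith) (nonneg_cn h1 hz))

/-- A point of a polyhedral cone on a supporting hyperplane is in the span of the generators on it. -/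
theorem face {n : ℕ} {t : Fin n → V} {ℓ : V →ₗ[ℝ] ℝ} (hℓ : ∀ i, 0 ≤ ℓ (t i)) {z : V}
    (hz : z ∈ cn t) (hz0 : ℓ z = 0) : ∃ a : Fin n → ℝ, (∀ i, 0 ≤ a i) ∧ z = ∑ i, a i • t i ∧
      ∀ i, ℓ (t i) ≠ 0 → a i = 0 := by
  obtain ⟨a, ha, rfl⟩ := hz
  refine ⟨a, ha, rfl, fun i hi => ?_⟩
  rw [map_sum] at hz0
  have h1 := (Finset.sum_eq_zero_iff_of_nonneg (fun i _ => by
    rw [map_smul, smul_eq_mul]
    exact mul_nonneg (ha i) (hℓ i))).1 hz0 i (Finset.mem_univ _)
  rw [map_smul, smul_eq_mul] at h1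
  exact (mul_eq_zero.1 h1).resolve_right hi

/-- The span of some of the generators. -/
def sp {n : ℕ} (t : Fin n → V) (A : Finset (Fin n)) : Submodule ℝ V :=
  Submodule.span ℝ (t '' (A : Set (Fin n)))

theorem mem_sp {n : ℕ} {t : Fin n → V} {ℓ : V →ₗ[ℝ] ℝ} [DecidablePred fun i => ℓ (t i) = 0]
    (hℓ : ∀ i, 0 ≤ ℓ (t i)) {z : V}
    (hz : z ∈ cn t) (hz0 : ℓ z = 0) : z ∈ sp t (Finset.univ.filter fun i => ℓ (t i) = 0) := by
  obtain ⟨a, ha, h1, h2⟩ := face hℓ hz hz0
  rw [h1]
  refine Submodule.sum_mem _ fun i _ => ?_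
  by_cases hi : ℓ (t i) = 0
  · exact Submodule.smul_mem _ _ (Submodule.subset_span ⟨i, by simp [hi], rfl⟩)
  · rw [h2 i hi, zero_smul]
    exact Submodule.zero_mem _

theorem sp_le {n : ℕ} {t : Fin n → V} {ℓ : V →ₗ[ℝ] ℝ} [DecidablePred fun i => ℓ (t i) = 0] :
    sp t (Finset.univ.filter fun i => ℓ (t i) = 0) ≤ LinearMap.ker ℓ := by
  refine Submodule.span_le.2 ?_
  rintro _ ⟨i, hi, rfl⟩
  simpa using hi

/-- Subspaces of codimension at least two stay proper if a vector is added. -/
theorem codim {W H : Submodule ℝ V} (h1 : W < H) (h2 : H ≠ ⊤) (x : V) :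
    W ⊔ Submodule.span ℝ {x} ≠ ⊤ := by
  intro htop
  obtain ⟨w, hw, hw'⟩ := SetLike.exists_of_lt h1
  have h3 : w ∈ W ⊔ Submodule.span ℝ {x} := by rw [htop]; trivial
  obtain ⟨w', hw1, y, hy, h4⟩ := Submodule.mem_sup.1 h3
  obtain ⟨c, rfl⟩ := Submodule.mem_span_singleton.1 hy
  have hc : c ≠ 0 := by
    rintro rfl
    rw [zero_smul, add_zero] at h4
    exact hw' (h4 ▸ hw1)
  have hx : x ∈ H := by
    have h5 : x = c⁻¹ • (w - w') := by
      rw [← h4, add_sub_cancel_left, smul_smul, inv_mul_cancel₀ hc, one_smul]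
    rw [h5]
    exact H.smul_mem _ (H.sub_mem hw (h1.le hw1))
  refine h2 (top_le_iff.1 ?_)
  rw [← htop]
  exact sup_le h1.le ((Submodule.span_singleton_le_iff_mem _ _).2 hx)

theorem closed_line {n : ℕ} (t : Fin n → V) (x y : V) :
    IsClosed {s : ℝ | (1 - s) • x + s • y ∈ cn t} := by
  have : {s : ℝ | (1 - s) • x + s • y ∈ cn t} =
      ⋂ φ : {φ : V →ₗ[ℝ] ℝ // ∀ i, 0 ≤ φ (t i)}, {s : ℝ | 0 ≤ (1 - s) * φ.1 x + s * φ.1 y} := by
    ext s
    simp only [mem_ofPred_eq, mem_iInter, Subtype.forall]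
    constructor
    · intro h φ hφ
      have := nonneg_cn hφ h
      rwa [map_add, map_smul, map_smul, smul_eq_mul, smul_eq_mul] at this
    · intro h
      refine cn_dual t fun φ hφ => ?_
      rw [map_add, map_smul, map_smul, smul_eq_mul, smul_eq_mul]
      exact h φ hφ
  rw [this]
  refine isClosed_iInter fun φ => ?_
  exact isClosed_le continuous_const (by fun_prop)

/-- **Crossing walls.** Finitely many polyhedral cones are given, one of them has the point `x` in
its interior, and at every point of the segment from `x` to `y` which is on a wall of one of the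
cones there is a cone which reaches to the other side of the wall. If `y` is in general position
then it lies in one of the cones. -/
theorem segment {ι : Type*} [Finite ι] {m : ι → ℕ} (u : ∀ a, Fin (m a) → V) {x y : V}
    (hav : ∀ a b (A : Finset (Fin (m a))) (B : Finset (Fin (m b))),
      (sp (u a) A ⊓ sp (u b) B) ⊔ Submodule.span ℝ {x} ≠ ⊤ →
        y ∉ (sp (u a) A ⊓ sp (u b) B) ⊔ Submodule.span ℝ {x})
    (h0 : ∃ a, x ∈ inn (cn (u a)))
    (hst : ∀ s : ℝ, 0 < s → s < 1 → ∀ a, (1 - s) • x + s • y ∈ cn (u a) →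
      ∀ ℓ : V →ₗ[ℝ] ℝ, IsWall (cn (u a)) ℓ → ℓ ((1 - s) • x + s • y) = 0 →
        ∃ b, (1 - s) • x + s • y ∈ cn (u b) ∧ ∃ p ∈ cn (u b), ℓ p < 0) :
    ∃ a, y ∈ cn (u a) := by
  classical
  have hz : ∀ s ε : ℝ, (1 - (s + ε)) • x + (s + ε) • y = ((1 - s) • x + s • y) + ε • (y - x) := by
    intro s ε
    module
  -- convexity
  have hcv : ∀ a (z d : V) (ε ε' : ℝ), z ∈ cn (u a) → 0 < ε → ε ≤ ε' → z + ε' • d ∈ cn (u a) →
      z + ε • d ∈ cn (u a) := by
    intro a z d ε ε' hz hε hεε' h
    have hε' : 0 < ε' := hε.trans_le hεε'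
    have h7 : z + ε • d = (1 - ε / ε') • z + (ε / ε') • (z + ε' • d) := by
      rw [smul_add, smul_smul, div_mul_cancel₀ _ hε'.ne', sub_smul, one_smul]
      abel
    rw [h7]
    refine (cn_cone _).add _ ((cn_cone _).smul _ ?_ _ hz) _ ((cn_cone _).smul _ (by positivity) _ h)
    rw [sub_nonneg, div_le_one hε']
    exact hεε'
  -- points in general position
  have hgen : ∀ s : ℝ, 0 < s → ∀ a b (A : Finset (Fin (m a))) (B : Finset (Fin (m b))),
      (1 - s) • x + s • y ∈ sp (u a) A ⊓ sp (u b) B →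
        (sp (u a) A ⊓ sp (u b) B) ⊔ Submodule.span ℝ {x} = ⊤ := by
    intro s hs a b A B hW
    by_contra hne
    refine hav a b A B hne ?_
    have h1 : y = s⁻¹ • ((1 - s) • x + s • y) + (-(s⁻¹ * (1 - s))) • x := by
      rw [smul_add, smul_smul, smul_smul, inv_mul_cancel₀ hs.ne', one_smul]
      module
    rw [h1]
    exact Submodule.add_mem_sup (Submodule.smul_mem _ _ hW)
      (Submodule.smul_mem _ _ (Submodule.mem_span_singleton_self x))
  have hmain : Icc (0 : ℝ) 1 ⊆ {s | ∃ a, (1 - s) • x + s • y ∈ cn (u a)} := by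
    refine IsClosed.Icc_subset_of_forall_exists_gt ?_ ?_ ?_
    · refine IsClosed.inter ?_ isClosed_Icc
      have : {s : ℝ | ∃ a, (1 - s) • x + s • y ∈ cn (u a)} =
          ⋃ a, {s : ℝ | (1 - s) • x + s • y ∈ cn (u a)} := by
        ext s
        simp
      rw [this]
      exact isClosed_iUnion_of_finite fun a => closed_line _ _ _
    · obtain ⟨a, ha⟩ := h0
      refine ⟨a, ?_⟩
      rw [sub_zero, one_smul, zero_smul, add_zero]
      exact inn_sub ha
    · rintro s ⟨⟨a, ha⟩, hs0, hs1⟩ s' hs'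
      have hs' : s < s' := hs'
      -- it suffices to find a short step
      suffices hex : ∃ b, (1 - s) • x + s • y ∈ cn (u b) ∧ ∃ ε : ℝ, 0 < ε ∧
          ((1 - s) • x + s • y) + ε • (y - x) ∈ cn (u b) by
        obtain ⟨b, hb, ε, hε, h⟩ := hex
        refine ⟨s + min ε (s' - s), ⟨b, ?_⟩, ?_, ?_⟩
        · rw [hz]
          exact hcv b _ _ _ _ hb (lt_min hε (sub_pos.2 hs')) (min_le_left _ _) h
        · linarith [lt_min hε (sub_pos.2 hs')]
        · linarith [min_le_right ε (s' - s)]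
      rcases hs0.eq_or_lt with hs00 | hs00
      · obtain ⟨b, hb⟩ := h0
        rw [← hs00, sub_zero, one_smul, zero_smul, add_zero]
        obtain ⟨ε, hε, h⟩ := hb (y - x)
        exact ⟨b, inn_sub hb, ε, hε, h⟩
      · by_contra hcon
        push Not at hcon
        obtain ⟨z, hzdef⟩ : ∃ z, z = (1 - s) • x + s • y := ⟨_, rfl⟩
        rw [← hzdef] at ha hcon
        -- the form which is negative in the direction of the segment, at any of the cones
        have hsup : ∀ b, z ∈ cn (u b) → ∃ ℓ : V →ₗ[ℝ] ℝ, (∀ i, 0 ≤ ℓ (u b i)) ∧ ℓ z = 0 ∧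
            ℓ (y - x) < 0 ∧ LinearMap.ker ℓ = sp (u b) (Finset.univ.filter fun i => ℓ (u b i) = 0) := by
          intro b hb
          obtain ⟨ℓ, h1, h2, h3⟩ := support hb (hcon b hb)
          refine ⟨ℓ, h1, h2, h3, ?_⟩
          by_contra hne
          have hlt : sp (u b) (Finset.univ.filter fun i => ℓ (u b i) = 0) < LinearMap.ker ℓ :=
            lt_of_le_of_ne sp_le (Ne.symm hne)
          have hker : LinearMap.ker ℓ ≠ ⊤ := by
            intro h
            rw [LinearMap.ker_eq_top] at h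
            rw [h] at h3
            simp at h3
          have h4 := hgen s hs00 b b _ _ (by
            rw [← hzdef, inf_idem]
            exact mem_sp h1 hb h2)
          rw [inf_idem] at h4
          exact codim hlt hker x h4
        obtain ⟨ℓ, h1, h2, h3, h4⟩ := hsup a ha
        have hwall : IsWall (cn (u a)) ℓ := by
          refine ⟨?_, fun x hx => nonneg_cn h1 hx, ?_⟩
          · rintro rfl
            simp at h3
          · intro w hw
            have h5 : w ∈ LinearMap.ker ℓ := hw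
            rw [h4] at h5
            refine Submodule.span_mono ?_ h5
            rintro _ ⟨i, hi, rfl⟩
            exact ⟨gen_mem _ i, by simpa using hi⟩
        obtain ⟨b, hb, p, hp, hp'⟩ := hst s hs00 hs1 a (by rw [← hzdef]; exact ha) ℓ hwall
          (by rw [← hzdef]; exact h2)
        rw [← hzdef] at hb
        obtain ⟨ℓ', h1', h2', h3', h4'⟩ := hsup b hb
        by_cases hle : LinearMap.ker ℓ ≤ LinearMap.ker ℓ'
        · have h5 : ℓ' ∈ Submodule.span ℝ (Set.range fun _ : Fin 1 => ℓ) :=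
            mem_span_of_iInf_ker_le_ker (by simpa using hle)
          simp only [Set.range_const, Submodule.mem_span_singleton] at h5
          obtain ⟨c, rfl⟩ := h5
          have h6 := nonneg_cn h1' hp
          rw [LinearMap.smul_apply, smul_eq_mul] at h6 h3'
          have hc : 0 < c := by
            by_contra hc
            push Not at hc
            nlinarith
          nlinarith
        · have hlt : LinearMap.ker ℓ ⊓ LinearMap.ker ℓ' < LinearMap.ker ℓ := by
            refine lt_of_le_of_ne inf_le_left fun h => hle ?_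
            rw [← h]
            exact inf_le_right
          have hker : LinearMap.ker ℓ ≠ ⊤ := by
            intro h
            rw [LinearMap.ker_eq_top] at h
            exact hwall.1 h
          refine codim hlt hker x ?_
          have h5 := hgen s hs00 a b (Finset.univ.filter fun i => ℓ (u a i) = 0)
            (Finset.univ.filter fun i => ℓ' (u b i) = 0) (by
              rw [← hzdef, ← h4, ← h4']
              exact ⟨h2, h2'⟩)
          rw [← h4, ← h4'] at h5
          exact h5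
  obtain ⟨a, ha⟩ := hmain ⟨zero_le_one, le_rfl⟩
  refine ⟨a, ?_⟩
  rwa [sub_self, zero_smul, zero_add, one_smul] at ha

end Pool.Agent.H57.MC
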